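import Pool.Agent.Helper9.WS.Defs4

/-!
# WS-25: cubic forms that are not split

`cubic_poly`: a polynomial in two variables of degree 3 whose leading form is not a product of linear forms is, after a
linear change of variables, of the form `x (A x ^ 2 + C y ^ 2)` (`- A C` not a square) or `α x ^ 3 + γ y ^ 3` (`γ / α` not a
cube) plus terms of degree at most 2; in both cases the Hasse-Witt blocks are diagonal.
-/

set_option autoImplicit false

open MvPolynomial Finset Module

namespace Pool.Agent.Helper9.WS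

section deg6

variable {k : Type} [Field k]

/-- degree at most `n` -/
private def Dg6 (n : ℕ) (g : MvPolynomial (Fin 2) k) : Prop := ∀ e : Fin 2 →₀ ℕ, n < e 0 + e 1 → g.coeff e = 0

private lemma Dg6.mono {m n : ℕ} (h : m ≤ n) {g : MvPolynomial (Fin 2) k} (hg : Dg6 m g) : Dg6 n g :=
  fun e he => hg e (lt_of_le_of_lt h he)

private lemma Dg6.add {n : ℕ} {g g' : MvPolynomial (Fin 2) k} (h : Dg6 n g) (h' : Dg6 n g') : Dg6 n (g + g') := by
  intro e he
  rw [coeff_add, h e he, h' e he, add_zero]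

private lemma Dg6.sub {n : ℕ} {g g' : MvPolynomial (Fin 2) k} (h : Dg6 n g) (h' : Dg6 n g') : Dg6 n (g - g') := by
  intro e he
  rw [coeff_sub, h e he, h' e he, sub_zero]

/-- a product is small if the first factor is below `m` and the second one is at most `n` -/
private lemma mul6 {m n : ℕ} {g g' : MvPolynomial (Fin 2) k} (h : ∀ e : Fin 2 →₀ ℕ, m ≤ e 0 + e 1 → g.coeff e = 0)
    (h' : Dg6 n g') (e : Fin 2 →₀ ℕ) (he : m + n ≤ e 0 + e 1) : (g * g').coeff e = 0 := by
  rw [coeff_mul]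
  refine Finset.sum_eq_zero fun x hx => ?_
  replace hx : x.1 + x.2 = e := Finset.HasAntidiagonal.mem_antidiagonal.1 hx
  by_cases h1 : m ≤ x.1 0 + x.1 1
  · rw [h _ h1, zero_mul]
  · rw [h' x.2, mul_zero]
    have e0 : x.1 0 + x.2 0 = e 0 := by rw [← hx]; rfl
    have e1 : x.1 1 + x.2 1 = e 1 := by rw [← hx]; rfl
    omega

private lemma Dg6.mul {m n : ℕ} {g g' : MvPolynomial (Fin 2) k} (h : Dg6 m g) (h' : Dg6 n g') : Dg6 (m + n) (g * g') := by
  intro e he
  exact mul6 (m := m + 1) (fun e he => h e (by omega)) h' e (by omega)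

private lemma Dg6.C (a : k) : Dg6 0 (MvPolynomial.C a : MvPolynomial (Fin 2) k) := by
  intro e he
  rw [coeff_C, if_neg]
  rintro rfl
  simp at he

private lemma Dg6.pow {m : ℕ} {g : MvPolynomial (Fin 2) k} (h : Dg6 m g) (N : ℕ) : Dg6 (N * m) (g ^ N) := by
  induction N with
  | zero =>
    rw [pow_zero, zero_mul, ← MvPolynomial.C_1]
    exact Dg6.C 1
  | succ N ih =>
    rw [pow_succ, add_mul, one_mul]
    exact ih.mul h

private lemma Dg6.sum {ι : Type} (s : Finset ι) (g : ι → MvPolynomial (Fin 2) k) {n : ℕ} (h : ∀ i ∈ s, Dg6 n (g i)) :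
    Dg6 n (∑ i ∈ s, g i) := by
  intro e he
  rw [coeff_sum]
  exact Finset.sum_eq_zero fun i hi => h i hi e he

private lemma Dg6.monomial (d : Fin 2 →₀ ℕ) (a : k) : Dg6 (d 0 + d 1) (MvPolynomial.monomial d a) := by
  intro e he
  rw [coeff_monomial, if_neg]
  rintro rfl
  exact lt_irrefl _ he

private lemma Dg6.X (i : Fin 2) : Dg6 1 (MvPolynomial.X i : MvPolynomial (Fin 2) k) := by
  have h := Dg6.monomial (k := k) (Finsupp.single i 1) 1
  have h1 : (Finsupp.single i 1 : Fin 2 →₀ ℕ) 0 + (Finsupp.single i 1 : Fin 2 →₀ ℕ) 1 = 1 := by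
    fin_cases i <;> simp
  rw [h1] at h
  exact h

/-- linear forms -/
private noncomputable def lf6 (a b : k) : MvPolynomial (Fin 2) k := MvPolynomial.C a * MvPolynomial.X 0 +
  MvPolynomial.C b * MvPolynomial.X 1

private lemma Dg6.lf (a b : k) : Dg6 1 (lf6 a b) := by
  unfold lf6
  have h0 := (Dg6.C a).mul (Dg6.X (k := k) 0)
  have h1 := (Dg6.C b).mul (Dg6.X (k := k) 1)
  rw [zero_add] at h0 h1
  exact h0.add h1

/-- linear substitutions -/
private noncomputable def lh6 (a b c d : k) : MvPolynomial (Fin 2) k →ₐ[k] MvPolynomial (Fin 2) k :=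
  aeval ![lf6 a b, lf6 c d]

private lemma lh6_X0 (a b c d : k) : lh6 a b c d (X 0) = lf6 a b := by
  simp [lh6]

private lemma lh6_X1 (a b c d : k) : lh6 a b c d (X 1) = lf6 c d := by
  simp [lh6]

private lemma lh6_C (a b c d x : k) : lh6 a b c d (C x) = C x := by
  simp [lh6]

private lemma lh6_lf (a b c d x y : k) : lh6 a b c d (lf6 x y) = lf6 (x * a + y * c) (x * b + y * d) := by
  conv_lhs => unfold lf6
  rw [map_add, map_mul, map_mul, lh6_X0, lh6_X1, lh6_C, lh6_C]
  unfold lf6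
  simp only [map_add, map_mul]
  ring

private lemma lf6_10 : lf6 (1 : k) 0 = X 0 := by
  simp [lf6]

private lemma lf6_01 : lf6 (0 : k) 1 = X 1 := by
  simp [lf6]

private lemma lh6_comp {a b c d x y z w : k} (h1 : x * a + y * c = 1) (h2 : x * b + y * d = 0) (h3 : z * a + w * c = 0)
    (h4 : z * b + w * d = 1) : (lh6 a b c d).comp (lh6 x y z w) = AlgHom.id k _ := by
  apply MvPolynomial.algHom_ext
  intro i
  fin_cases i
  · change lh6 a b c d (lh6 x y z w (X 0)) = X 0
    rw [lh6_X0, lh6_lf, h1, h2, lf6_10]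
  · change lh6 a b c d (lh6 x y z w (X 1)) = X 1
    rw [lh6_X1, lh6_lf, h3, h4, lf6_01]

private noncomputable def la6 (a b c d : k) (h : a * d - b * c ≠ 0) :
    MvPolynomial (Fin 2) k ≃ₐ[k] MvPolynomial (Fin 2) k :=
  AlgEquiv.ofAlgHom (lh6 a b c d)
    (lh6 (d / (a * d - b * c)) (-b / (a * d - b * c)) (-c / (a * d - b * c)) (a / (a * d - b * c)))
    (lh6_comp
      (by rw [div_mul_eq_mul_div, div_mul_eq_mul_div, ← add_div, div_eq_one_iff_eq h]; ring)
      (by rw [div_mul_eq_mul_div, div_mul_eq_mul_div, ← add_div, div_eq_zero_iff]; left; ring)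
      (by rw [div_mul_eq_mul_div, div_mul_eq_mul_div, ← add_div, div_eq_zero_iff]; left; ring)
      (by rw [div_mul_eq_mul_div, div_mul_eq_mul_div, ← add_div, div_eq_one_iff_eq h]; ring))
    (lh6_comp
      (by rw [mul_div_assoc', mul_div_assoc', ← add_div, div_eq_one_iff_eq h]; ring)
      (by rw [mul_div_assoc', mul_div_assoc', ← add_div, div_eq_zero_iff]; left; ring)
      (by rw [mul_div_assoc', mul_div_assoc', ← add_div, div_eq_zero_iff]; left; ring)
      (by rw [mul_div_assoc', mul_div_assoc', ← add_div, div_eq_one_iff_eq h]; ring))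

/-- automorphisms that do not increase the degree and map linear forms to linear forms -/
private structure Lin6 (φ : MvPolynomial (Fin 2) k ≃ₐ[k] MvPolynomial (Fin 2) k) : Prop where
  dg : ∀ (n : ℕ) (g : MvPolynomial (Fin 2) k), Dg6 n g → Dg6 n (φ g)
  lf : ∀ x y : k, ∃ x' y' : k, φ.symm (lf6 x y) = lf6 x' y'

private lemma lin6 (a b c d : k) (h : a * d - b * c ≠ 0) : Lin6 (la6 a b c d h) := by
  constructor
  · intro n g hg
    change Dg6 n (lh6 a b c d g)
    unfold lh6
    rw [aeval_def, eval₂_eq']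
    refine Dg6.sum _ _ fun e he => ?_
    have h1 : e 0 + e 1 ≤ n := by
      by_contra h2
      exact (mem_support_iff.1 he) (hg e (not_le.1 h2))
    refine Dg6.mono h1 ?_
    rw [Fin.prod_univ_two]
    have h2 := (Dg6.lf a b).pow (e 0)
    have h3 := (Dg6.lf c d).pow (e 1)
    rw [mul_one] at h2 h3
    have h4 := (Dg6.C (g.coeff e)).mul (h2.mul h3)
    rw [zero_add] at h4
    exact h4
  · intro x y
    exact ⟨_, _, lh6_lf _ _ _ _ x y⟩

private lemma Lin6.trans {φ ψ : MvPolynomial (Fin 2) k ≃ₐ[k] MvPolynomial (Fin 2) k} (h : Lin6 φ) (h' : Lin6 ψ) :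
    Lin6 (φ.trans ψ) := by
  constructor
  · intro n g hg
    exact h'.dg n _ (h.dg n g hg)
  · intro x y
    obtain ⟨x1, y1, h1⟩ := h'.lf x y
    obtain ⟨x2, y2, h2⟩ := h.lf x1 y1
    refine ⟨x2, y2, ?_⟩
    rw [AlgEquiv.symm_trans_apply, h1, h2]

end deg6

section form6

variable {k : Type} [Field k]

/-- the exponent -/
private noncomputable def ex6 (a b : ℕ) : Fin 2 →₀ ℕ := Finsupp.single 0 a + Finsupp.single 1 b

private lemma ex6_0 (a b : ℕ) : ex6 a b 0 = a := by
  simp [ex6]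

private lemma ex6_1 (a b : ℕ) : ex6 a b 1 = b := by
  simp [ex6]

private lemma ex6_ext {e : Fin 2 →₀ ℕ} {a b : ℕ} : ex6 a b = e ↔ e 0 = a ∧ e 1 = b := by
  constructor
  · rintro rfl
    exact ⟨ex6_0 a b, ex6_1 a b⟩
  · rintro ⟨rfl, rfl⟩
    ext i
    fin_cases i
    · exact ex6_0 _ _
    · exact ex6_1 _ _

/-- the cubic form with the coefficients `c` -/
private noncomputable def F6 (c : Fin 4 → k) : MvPolynomial (Fin 2) k :=
  monomial (ex6 0 3) (c 0) + monomial (ex6 1 2) (c 1) + monomial (ex6 2 1) (c 2) + monomial (ex6 3 0) (c 3)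

private lemma mon6 (a b : ℕ) (x : k) : (monomial (ex6 a b) x : MvPolynomial (Fin 2) k) = C x * X 0 ^ a * X 1 ^ b := by
  rw [MvPolynomial.X_pow_eq_monomial, MvPolynomial.X_pow_eq_monomial, MvPolynomial.C_mul_monomial,
    MvPolynomial.monomial_mul, mul_one, mul_one]
  rfl

private lemma F6_eq (c : Fin 4 → k) : F6 c = C (c 0) * X 1 ^ 3 + C (c 1) * X 0 * X 1 ^ 2 + C (c 2) * X 0 ^ 2 * X 1 +
    C (c 3) * X 0 ^ 3 := by
  unfold F6
  rw [mon6, mon6, mon6, mon6]
  ring

private lemma coeff_F6 (c : Fin 4 → k) (a b : ℕ) : (F6 c).coeff (ex6 a b) =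
    (if a = 0 ∧ b = 3 then c 0 else 0) + (if a = 1 ∧ b = 2 then c 1 else 0) + (if a = 2 ∧ b = 1 then c 2 else 0) +
      (if a = 3 ∧ b = 0 then c 3 else 0) := by
  unfold F6
  simp only [coeff_add, coeff_monomial, ex6_ext, ex6_0, ex6_1]

private lemma F6_inj {c c' : Fin 4 → k} (h : F6 c = F6 c') : c = c' := by
  funext i
  fin_cases i
  · have := congrArg (coeff (ex6 0 3)) h
    simpa [coeff_F6] using this
  · have := congrArg (coeff (ex6 1 2)) h
    simpa [coeff_F6] using this
  · have := congrArg (coeff (ex6 2 1)) h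
    simpa [coeff_F6] using this
  · have := congrArg (coeff (ex6 3 0)) h
    simpa [coeff_F6] using this

private lemma Dg6.F6 (c : Fin 4 → k) : Dg6 3 (F6 c) := by
  unfold WS.F6
  have h0 := Dg6.monomial (ex6 0 3) (c 0)
  have h1 := Dg6.monomial (ex6 1 2) (c 1)
  have h2 := Dg6.monomial (ex6 2 1) (c 2)
  have h3 := Dg6.monomial (ex6 3 0) (c 3)
  rw [ex6_0, ex6_1] at h0 h1 h2 h3
  exact ((h0.add h1).add h2).add h3

/-- the cubic form is a product of linear forms -/
private def Sp6 (F : MvPolynomial (Fin 2) k) : Prop :=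
  ∃ x y z w u v : k, F = lf6 x y * lf6 z w * lf6 u v

private lemma Sp6.trans {φ : MvPolynomial (Fin 2) k ≃ₐ[k] MvPolynomial (Fin 2) k} (h : Lin6 φ)
    {F : MvPolynomial (Fin 2) k} (hs : Sp6 (φ F)) : Sp6 F := by
  obtain ⟨x, y, z, w, u, v, h1⟩ := hs
  obtain ⟨x1, y1, e1⟩ := h.lf x y
  obtain ⟨x2, y2, e2⟩ := h.lf z w
  obtain ⟨x3, y3, e3⟩ := h.lf u v
  refine ⟨x1, y1, x2, y2, x3, y3, ?_⟩
  rw [← e1, ← e2, ← e3, ← map_mul, ← map_mul, ← h1, AlgEquiv.symm_apply_apply]

private lemma prod_lf6 (x y z w u v : k) : lf6 x y * lf6 z w * lf6 u v =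
    F6 ![y * w * v, x * w * v + y * z * v + y * w * u, x * z * v + x * w * u + y * z * u, x * z * u] := by
  rw [F6_eq]
  unfold lf6
  simp only [Matrix.cons_val_zero, Matrix.cons_val_one, Matrix.cons_val, map_add, map_mul]
  ring

private lemma not_sp6 {c : Fin 4 → k} (h : ∀ x y z w u v : k, ¬ (c 3 = x * z * u ∧ c 2 = x * z * v + x * w * u + y * z * u ∧
      c 1 = x * w * v + y * z * v + y * w * u ∧ c 0 = y * w * v)) : ¬ Sp6 (F6 c) := by
  rintro ⟨x, y, z, w, u, v, h1⟩
  rw [prod_lf6] at h1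
  have h2 := F6_inj h1
  apply h x y z w u v
  rw [h2]
  simp

/-- a linear substitution in a cubic form -/
private lemma sub6 (a b c d : k) (e : Fin 4 → k) : lh6 a b c d (F6 e) =
    F6 ![e 0 * d ^ 3 + e 1 * b * d ^ 2 + e 2 * b ^ 2 * d + e 3 * b ^ 3,
      3 * e 0 * c * d ^ 2 + e 1 * (2 * b * c * d + a * d ^ 2) + e 2 * (b ^ 2 * c + 2 * a * b * d) + 3 * e 3 * a * b ^ 2,
      3 * e 0 * c ^ 2 * d + e 1 * (b * c ^ 2 + 2 * a * c * d) + e 2 * (2 * a * b * c + a ^ 2 * d) + 3 * e 3 * a ^ 2 * b,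
      e 0 * c ^ 3 + e 1 * a * c ^ 2 + e 2 * a ^ 2 * c + e 3 * a ^ 3] := by
  rw [F6_eq, F6_eq]
  simp only [map_add, map_mul, map_pow, lh6_X0, lh6_X1, lh6_C]
  unfold lf6
  simp only [Matrix.cons_val_zero, Matrix.cons_val_one, Matrix.cons_val, map_add, map_mul, map_pow, map_ofNat]
  ring

end form6


section fld6

/-- cubes in a finite field -/
private lemma cube6 {K : Type} [Field K] [Fintype K] {m : ℕ} (hm : Fintype.card K = 3 * m + 1) {z : K} (hz : z ≠ 0)
    (h : z ^ m = 1) : ∃ w : K, w ^ 3 = z := by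
  classical
  have hm0 : 0 < m := by
    have := Fintype.one_lt_card (α := K)
    omega
  obtain ⟨g, hg⟩ := IsCyclic.exists_generator (α := Kˣ)
  have h1 : Units.mk0 z hz ∈ Submonoid.powers g := by
    rw [mem_powers_iff_mem_zpowers]
    exact hg _
  obtain ⟨t, ht⟩ := h1
  have ho : orderOf g = 3 * m := by
    rw [orderOf_eq_card_of_forall_mem_zpowers hg, Nat.card_eq_fintype_card, Fintype.card_units, hm]
    rfl
  have h2 : g ^ (t * m) = 1 := by
    rw [pow_mul]
    simp only at ht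
    rw [ht]
    ext
    simpa using h
  have h3 : 3 * m ∣ t * m := ho ▸ orderOf_dvd_of_pow_eq_one h2
  have h4 : 3 ∣ t := Nat.dvd_of_mul_dvd_mul_right hm0 h3
  obtain ⟨u, rfl⟩ := h4
  refine ⟨((g ^ u : Kˣ) : K), ?_⟩
  have h5 := congrArg (fun x : Kˣ => (x : K)) ht
  simp only [Units.val_mk0] at h5
  rw [← h5, mul_comm, pow_mul]
  simp

/-- there is an element that is not a cube -/
private lemma noncube6 {K : Type} [Field K] [Fintype K] {m : ℕ} (hm : Fintype.card K = 3 * m + 1) :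
    ∃ β : K, ∀ w : K, w ^ 3 ≠ β := by
  classical
  by_contra hcon
  push Not at hcon
  have hs : Function.Surjective (fun w : K => w ^ 3) := hcon
  have hi : Function.Injective (fun w : K => w ^ 3) := Finite.injective_iff_surjective.2 hs
  have h3 : 3 ∣ Fintype.card Kˣ := by
    rw [Fintype.card_units, hm]
    exact ⟨m, by simp⟩
  have : Fact (Nat.Prime 3) := ⟨Nat.prime_three⟩
  obtain ⟨g, hg⟩ := exists_prime_orderOf_dvd_card 3 h3
  have h1 : ((g : Kˣ) : K) = 1 := by
    apply hi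
    have h2 : g ^ 3 = 1 := by
      rw [← hg]
      exact pow_orderOf_eq_one g
    have h4 := congrArg (fun x : Kˣ => (x : K)) h2
    simpa using h4
  have h2 : g = 1 := by
    ext
    simpa using h1
  rw [h2, orderOf_one] at hg
  omega

/-- binomial coefficients modulo `p` -/
private lemma choose6 {p : ℕ} [Fact p.Prime] {k : Type} [Field k] [CharP k p] (m : ℕ) (hm : m < p) :
    (((p - 1).choose m : ℕ) : k) = (-1) ^ m := by
  have hp : 0 < p := (Fact.out : p.Prime).pos
  induction m with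
  | zero => simp
  | succ m ih =>
    have h1 := ih (by omega)
    have h2 : p.choose (m + 1) = (p - 1).choose m + (p - 1).choose (m + 1) := by
      have := Nat.choose_succ_succ (p - 1) m
      rwa [Nat.succ_eq_add_one, Nat.sub_add_cancel hp] at this
    have h3 : ((p.choose (m + 1) : ℕ) : k) = 0 := by
      rw [CharP.cast_eq_zero_iff k p]
      exact (Fact.out : p.Prime).dvd_choose_self (by omega) hm
    rw [h2, Nat.cast_add, h1] at h3
    rw [pow_succ, mul_neg_one]
    exact eq_neg_of_add_eq_zero_right h3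

private lemma choose_ne6 {p : ℕ} [Fact p.Prime] {k : Type} [Field k] [CharP k p] {N m : ℕ} (hN : N < p) (hm : m ≤ N) :
    ((N.choose m : ℕ) : k) ≠ 0 := by
  rw [Ne, CharP.cast_eq_zero_iff k p]
  intro h
  have h1 : p ∣ N.factorial := by
    rw [← Nat.choose_mul_factorial_mul_factorial hm, mul_assoc]
    exact h.mul_right _
  have h2 := ((Fact.out : p.Prime).dvd_factorial).1 h1
  omega

/-- `1, η, η ^ 2` are independent -/
private lemma indep6 {k K : Type} [Field k] [Field K] [Algebra k K] {β : k} (hβ : ∀ w : k, w ^ 3 ≠ β) {η : K}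
    (hη : η ^ 3 = algebraMap k K β) {u v w : k}
    (h : algebraMap k K u * η ^ 2 + algebraMap k K v * η + algebraMap k K w = 0) : u = 0 ∧ v = 0 ∧ w = 0 := by
  have hnot : ∀ x : k, η ≠ algebraMap k K x := by
    intro x hx
    apply hβ x
    apply (algebraMap k K).injective
    rw [map_pow, ← hx, hη]
  have hlin : ∀ v w : k, algebraMap k K v * η + algebraMap k K w = 0 → v = 0 ∧ w = 0 := by
    intro v w h
    have hv : v = 0 := by
      by_contra hv
      apply hnot (-w / v)
      have hv' : algebraMap k K v ≠ 0 := by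
        rwa [Ne, map_eq_zero_iff _ (algebraMap k K).injective]
      rw [map_div₀, map_neg, eq_div_iff hv']
      linear_combination h
    refine ⟨hv, ?_⟩
    rw [hv, map_zero, zero_mul, zero_add] at h
    exact (map_eq_zero_iff _ (algebraMap k K).injective).1 h
  have hu : u = 0 := by
    by_contra hu
    have hu' : algebraMap k K u ≠ 0 := by
      rwa [Ne, map_eq_zero_iff _ (algebraMap k K).injective]
    set s : k := -v / u with hs
    set t : k := -w / u with ht
    have h1 : η ^ 2 = algebraMap k K s * η + algebraMap k K t := by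
      rw [hs, ht, map_div₀, map_div₀, map_neg, map_neg]
      field_simp
      linear_combination h
    have h2 : algebraMap k K (s ^ 2 + t) * η + algebraMap k K (s * t - β) = 0 := by
      rw [map_add, map_sub, map_mul, map_pow, ← hη]
      linear_combination (-(η + algebraMap k K s)) * h1
    obtain ⟨h3, h4⟩ := hlin _ _ h2
    apply hβ (-s)
    have h5 : t = -s ^ 2 := by linear_combination h3
    rw [h5] at h4
    linear_combination h4
  refine ⟨hu, ?_⟩
  rw [hu, map_zero, zero_mul, zero_add] at h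
  exact hlin v w h

end fld6

section norm6

variable {k : Type} [Field k]

/-- the case of a rational zero -/
private lemma caseA6 (h2 : (2 : k) ≠ 0) {c : Fin 4 → k} (hs : ¬ Sp6 (F6 c)) {x y : k} (hxy : ¬ (x = 0 ∧ y = 0))
    (hz : c 0 * y ^ 3 + c 1 * x * y ^ 2 + c 2 * x ^ 2 * y + c 3 * x ^ 3 = 0) :
    ∃ φ : MvPolynomial (Fin 2) k ≃ₐ[k] MvPolynomial (Fin 2) k, Lin6 φ ∧ ∃ A C : k,
      φ (F6 c) = monomial (ex6 3 0) A + monomial (ex6 1 2) C ∧ C ≠ 0 ∧ ¬ IsSquare (-(A * C)) := by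
  obtain ⟨a, c', hΔ⟩ : ∃ a c' : k, a * y - x * c' ≠ 0 := by
    by_cases hx : x = 0
    · refine ⟨1, 0, ?_⟩
      have hy : y ≠ 0 := fun hy => hxy ⟨hx, hy⟩
      simpa using hy
    · refine ⟨0, 1, ?_⟩
      simpa using hx
  have h1 : la6 a x c' y hΔ (F6 c) = lh6 a x c' y (F6 c) := rfl
  rw [sub6] at h1
  have hl1 := lin6 a x c' y hΔ
  set B : Fin 4 → k := ![c 0 * y ^ 3 + c 1 * x * y ^ 2 + c 2 * x ^ 2 * y + c 3 * x ^ 3,
      3 * c 0 * c' * y ^ 2 + c 1 * (2 * x * c' * y + a * y ^ 2) + c 2 * (x ^ 2 * c' + 2 * a * x * y) + 3 * c 3 * a * x ^ 2,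
      3 * c 0 * c' ^ 2 * y + c 1 * (x * c' ^ 2 + 2 * a * c' * y) + c 2 * (2 * a * x * c' + a ^ 2 * y) + 3 * c 3 * a ^ 2 * x,
      c 0 * c' ^ 3 + c 1 * a * c' ^ 2 + c 2 * a ^ 2 * c' + c 3 * a ^ 3] with hB
  have hB0 : B 0 = 0 := by
    rw [hB]
    simpa using hz
  have hs1 : ¬ Sp6 (F6 B) := by
    intro h
    apply hs
    apply Sp6.trans hl1
    rw [h1]
    exact h
  have hB1 : B 1 ≠ 0 := by
    intro h
    apply hs1
    refine ⟨1, 0, 1, 0, B 3, B 2, ?_⟩
    rw [F6_eq, hB0, h]
    unfold lf6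
    simp only [map_zero, map_one]
    ring
  set D : k := -(B 2) / (2 * B 1) with hD
  have hΔ2 : (1 : k) * 1 - 0 * D ≠ 0 := by simp
  have h3 : la6 1 0 D 1 hΔ2 (F6 B) = lh6 1 0 D 1 (F6 B) := rfl
  have hl2 := lin6 1 0 D 1 hΔ2
  have h4 : lh6 1 0 D 1 (F6 B) = monomial (ex6 3 0) (B 3 - B 2 ^ 2 / (4 * B 1)) + monomial (ex6 1 2) (B 1) := by
    rw [sub6]
    unfold F6
    have e0 : B 0 * 1 ^ 3 + B 1 * 0 * 1 ^ 2 + B 2 * 0 ^ 2 * 1 + B 3 * 0 ^ 3 = 0 := by
      rw [hB0]
      ring
    have e1 : 3 * B 0 * D * 1 ^ 2 + B 1 * (2 * 0 * D * 1 + 1 * 1 ^ 2) + B 2 * (0 ^ 2 * D + 2 * 1 * 0 * 1) +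
        3 * B 3 * 1 * 0 ^ 2 = B 1 := by
      rw [hB0]
      ring
    have e2 : 3 * B 0 * D ^ 2 * 1 + B 1 * (0 * D ^ 2 + 2 * 1 * D * 1) + B 2 * (2 * 1 * 0 * D + 1 ^ 2 * 1) +
        3 * B 3 * 1 ^ 2 * 0 = 0 := by
      rw [hB0, hD]
      field_simp
      ring
    have e3 : B 0 * D ^ 3 + B 1 * 1 * D ^ 2 + B 2 * 1 ^ 2 * D + B 3 * 1 ^ 3 = B 3 - B 2 ^ 2 / (4 * B 1) := by
      have h4 : (4 : k) ≠ 0 := by
        have : (4 : k) = 2 * 2 := by norm_num
        rw [this]
        exact mul_ne_zero h2 h2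
      rw [hB0, hD]
      field_simp
      ring
    rw [e0, e1, e2, e3]
    simp only [Matrix.cons_val_zero, Matrix.cons_val_one, Matrix.cons_val, map_zero]
    ring
  refine ⟨(la6 a x c' y hΔ).trans (la6 1 0 D 1 hΔ2), hl1.trans hl2, B 3 - B 2 ^ 2 / (4 * B 1), B 1, ?_, hB1, ?_⟩
  · rw [AlgEquiv.trans_apply, h1, h3, h4]
  · rintro ⟨t, ht⟩
    apply hs1
    apply Sp6.trans hl2
    rw [h3, h4]
    refine ⟨1, 0, -t, B 1, t / B 1, 1, ?_⟩
    rw [mon6, mon6]
    unfold lf6
    have h5 : B 3 - B 2 ^ 2 / (4 * B 1) = -(t * (t / B 1)) := by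
      field_simp
      field_simp at ht
      linear_combination -ht
    rw [h5]
    have h6 : B 1 * (t / B 1) = t := by
      field_simp
    have h7 : (C (B 1) * C (t / B 1) : MvPolynomial (Fin 2) k) = C t := by
      rw [← C_mul, h6]
    simp only [map_zero, map_one, map_neg, map_mul]
    linear_combination (-(X 0 ^ 2 * X 1 : MvPolynomial (Fin 2) k)) * h7

private lemma aeval6 {K : Type} [Field K] [Algebra k K] (c : Fin 4 → k) (x : K) :
    Polynomial.aeval x (Polynomial.C (c 3) * Polynomial.X ^ 3 + Polynomial.C (c 2) * Polynomial.X ^ 2 +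
      Polynomial.C (c 1) * Polynomial.X + Polynomial.C (c 0)) = algebraMap k K (c 3) * x ^ 3 +
      algebraMap k K (c 2) * x ^ 2 + algebraMap k K (c 1) * x + algebraMap k K (c 0) := by
  simp

/-- the case without a rational zero -/
private lemma caseB6 [Fintype k] {m : ℕ} (hq : Fintype.card k = 3 * m + 1) {c : Fin 4 → k}
    (hz : ∀ x y : k, c 0 * y ^ 3 + c 1 * x * y ^ 2 + c 2 * x ^ 2 * y + c 3 * x ^ 3 = 0 → x = 0 ∧ y = 0) :
    ∃ φ : MvPolynomial (Fin 2) k ≃ₐ[k] MvPolynomial (Fin 2) k, Lin6 φ ∧ ∃ α γ : k,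
      φ (F6 c) = monomial (ex6 3 0) α + monomial (ex6 0 3) γ ∧ α ≠ 0 ∧ γ ≠ 0 ∧ ∀ w : k, w ^ 3 * α ≠ γ := by
  classical
  have hc3 : c 3 ≠ 0 := by
    intro h
    have := (hz 1 0 (by rw [h]; ring)).1
    exact one_ne_zero this
  set P : Polynomial k := Polynomial.C (c 3) * Polynomial.X ^ 3 + Polynomial.C (c 2) * Polynomial.X ^ 2 +
    Polynomial.C (c 1) * Polynomial.X + Polynomial.C (c 0) with hP
  have hdeg : P.natDegree = 3 := Polynomial.natDegree_cubic hc3
  have hirr : Irreducible P := by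
    apply Polynomial.irreducible_of_degree_le_three_of_not_isRoot
    · rw [hdeg]
      decide
    · intro x hx
      rw [Polynomial.IsRoot.def, hP] at hx
      simp only [Polynomial.eval_add, Polynomial.eval_mul, Polynomial.eval_C, Polynomial.eval_pow, Polynomial.eval_X] at hx
      have := (hz x 1 (by linear_combination hx)).2
      exact one_ne_zero this
  have : Fact (Irreducible P) := ⟨hirr⟩
  let K := AdjoinRoot P
  let _ : Field K := AdjoinRoot.instField
  have hfin : Module.finrank k K = 3 := by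
    have h1 := (AdjoinRoot.powerBasis hirr.ne_zero).finrank
    rw [AdjoinRoot.powerBasis_dim] at h1
    rw [← hdeg]
    exact h1
  have : Module.Finite k K := Module.finite_of_finrank_pos (by rw [hfin]; norm_num)
  have : Finite K := Module.finite_of_finite k
  let _ : Fintype K := Fintype.ofFinite K
  have hK : Fintype.card K = Fintype.card k ^ 3 := by
    rw [Module.card_eq_pow_finrank (K := k) (V := K), hfin]
  obtain ⟨β, hβ⟩ := noncube6 hq
  have hβ0 : β ≠ 0 := by
    rintro rfl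
    exact hβ 0 (by ring)
  set θ : K := AdjoinRoot.root P with hθ
  have hθP : algebraMap k K (c 3) * θ ^ 3 + algebraMap k K (c 2) * θ ^ 2 + algebraMap k K (c 1) * θ +
      algebraMap k K (c 0) = 0 := by
    have h1 : Polynomial.aeval θ P = 0 := by rw [hθ, AdjoinRoot.aeval_eq, AdjoinRoot.mk_self]
    exact (aeval6 c θ).symm.trans h1
  -- the cube root of β
  obtain ⟨η, hη⟩ : ∃ η : K, η ^ 3 = algebraMap k K β := by
    apply cube6 (m := 3 * m * (3 * m ^ 2 + 3 * m + 1))
    · rw [hK, hq]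
      ring
    · rwa [Ne, map_eq_zero_iff _ (algebraMap k K).injective]
    · rw [pow_mul, ← map_pow]
      have h1 : β ^ (3 * m) = 1 := by
        have := FiniteField.pow_card_sub_one_eq_one β hβ0
        rwa [hq, Nat.add_sub_cancel] at this
      rw [h1, map_one, one_pow]
  have hθn : ∀ x : k, θ ≠ algebraMap k K x := by
    intro x hx
    rw [hx, ← map_pow, ← map_pow, ← map_mul, ← map_mul, ← map_mul, ← map_add, ← map_add, ← map_add,
      map_eq_zero_iff _ (algebraMap k K).injective] at hθP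
    have := (hz x 1 (by linear_combination hθP)).2
    exact one_ne_zero this
  have hηn : ∀ x : k, η ≠ algebraMap k K x := by
    intro x hx
    apply hβ x
    apply (algebraMap k K).injective
    rw [map_pow, ← hx, hη]
  -- the linear relation
  obtain ⟨g, hg, i, hi⟩ : ∃ g : Fin 4 → k, ∑ j, g j • (![η, 1, θ * η, θ] : Fin 4 → K) j = 0 ∧ ∃ i, g i ≠ 0 := by
    apply Fintype.not_linearIndependent_iff.1
    intro h
    have h1 := h.fintype_card_le_finrank
    rw [hfin, Fintype.card_fin] at h1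
    omega
  obtain ⟨a, b, c', d, hrel, hne⟩ : ∃ a b c' d : k,
      algebraMap k K a * η + algebraMap k K b = θ * (algebraMap k K c' * η + algebraMap k K d) ∧
      ¬ (a = 0 ∧ b = 0 ∧ c' = 0 ∧ d = 0) := by
    refine ⟨g 0, g 1, -g 2, -g 3, ?_, ?_⟩
    · simp only [Fin.sum_univ_four, Algebra.smul_def, Matrix.cons_val_zero, Matrix.cons_val_one, Matrix.cons_val,
        mul_one] at hg
      rw [map_neg, map_neg]
      linear_combination hg
    · rintro ⟨h0, h1, h2, h3⟩
      apply hi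
      fin_cases i
      · exact h0
      · exact h1
      · exact neg_eq_zero.1 h2
      · exact neg_eq_zero.1 h3
  have hab : ∀ u v : k, algebraMap k K u * η + algebraMap k K v = 0 → u = 0 ∧ v = 0 := by
    intro u v h
    have := indep6 hβ hη (u := 0) (v := u) (w := v) (by rw [map_zero, zero_mul, zero_add]; exact h)
    exact this.2
  have hcd : algebraMap k K c' * η + algebraMap k K d ≠ 0 := by
    intro h
    obtain ⟨h1, h2⟩ := hab _ _ h
    rw [h, mul_zero] at hrel
    obtain ⟨h3, h4⟩ := hab _ _ hrel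
    exact hne ⟨h3, h4, h1, h2⟩
  have hΔ : a * d - b * c' ≠ 0 := by
    intro h
    by_cases hd : d = 0
    · have hc' : c' ≠ 0 := by
        rintro rfl
        apply hcd
        rw [hd]
        simp
      have hb : b = 0 := by
        rw [hd, mul_zero, zero_sub, neg_eq_zero] at h
        exact (mul_eq_zero.1 h).resolve_right hc'
      have hη0 : η ≠ 0 := by
        have := hηn 0
        rwa [map_zero] at this
      apply hθn (a / c')
      rw [hd, hb, map_zero, add_zero, add_zero] at hrel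
      have h1 : algebraMap k K c' ≠ 0 := by
        rwa [Ne, map_eq_zero_iff _ (algebraMap k K).injective]
      rw [map_div₀, eq_div_iff h1]
      apply mul_right_cancel₀ hη0
      linear_combination -hrel
    · apply hθn (b / d)
      have h1 : algebraMap k K d ≠ 0 := by
        rwa [Ne, map_eq_zero_iff _ (algebraMap k K).injective]
      have h2 : algebraMap k K a * algebraMap k K d = algebraMap k K b * algebraMap k K c' := by
        rw [← map_mul, ← map_mul, sub_eq_zero.1 h]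
      rw [map_div₀, eq_div_iff h1]
      apply mul_right_cancel₀ hcd
      linear_combination (-algebraMap k K d) * hrel + η * h2
  set B : Fin 4 → k := ![c 0 * d ^ 3 + c 1 * b * d ^ 2 + c 2 * b ^ 2 * d + c 3 * b ^ 3,
      3 * c 0 * c' * d ^ 2 + c 1 * (2 * b * c' * d + a * d ^ 2) + c 2 * (b ^ 2 * c' + 2 * a * b * d) + 3 * c 3 * a * b ^ 2,
      3 * c 0 * c' ^ 2 * d + c 1 * (b * c' ^ 2 + 2 * a * c' * d) + c 2 * (2 * a * b * c' + a ^ 2 * d) + 3 * c 3 * a ^ 2 * b,
      c 0 * c' ^ 3 + c 1 * a * c' ^ 2 + c 2 * a ^ 2 * c' + c 3 * a ^ 3] with hB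
  have hsub : la6 a b c' d hΔ (F6 c) = F6 B := sub6 a b c' d c
  have hBeq : algebraMap k K (B 3) * η ^ 3 + algebraMap k K (B 2) * η ^ 2 + algebraMap k K (B 1) * η +
      algebraMap k K (B 0) = 0 := by
    rw [hB]
    simp only [Matrix.cons_val_zero, Matrix.cons_val_one, Matrix.cons_val, map_add, map_mul, map_pow, map_ofNat]
    have h1 : algebraMap k K (c 3) * (algebraMap k K a * η + algebraMap k K b) ^ 3 +
        algebraMap k K (c 2) * (algebraMap k K a * η + algebraMap k K b) ^ 2 *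
          (algebraMap k K c' * η + algebraMap k K d) +
        algebraMap k K (c 1) * (algebraMap k K a * η + algebraMap k K b) *
          (algebraMap k K c' * η + algebraMap k K d) ^ 2 +
        algebraMap k K (c 0) * (algebraMap k K c' * η + algebraMap k K d) ^ 3 = 0 := by
      rw [hrel]
      linear_combination (algebraMap k K c' * η + algebraMap k K d) ^ 3 * hθP
    linear_combination h1
  have hB' : B 2 = 0 ∧ B 1 = 0 ∧ B 3 * β + B 0 = 0 := by
    apply indep6 hβ hη
    rw [map_add, map_mul, ← hη]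
    linear_combination hBeq
  obtain ⟨hB2, hB1, hB0⟩ := hB'
  have hB3 : B 3 ≠ 0 := by
    intro h
    have h0 : B 0 = 0 := by
      rw [h, zero_mul, zero_add] at hB0
      exact hB0
    have h1 : F6 B = 0 := by
      rw [F6_eq, h, hB2, hB1, h0]
      simp
    have h2 : F6 c = 0 := by
      apply (la6 a b c' d hΔ).injective
      rw [hsub, h1, map_zero]
    have h3 : F6 c = F6 0 := by
      rw [h2, F6_eq]
      simp
    apply hc3
    rw [F6_inj h3]
    rfl
  have hB0' : B 0 = -β * B 3 := by linear_combination hB0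
  refine ⟨la6 a b c' d hΔ, lin6 a b c' d hΔ, B 3, B 0, ?_, hB3, ?_, ?_⟩
  · rw [hsub]
    unfold F6
    rw [hB1, hB2]
    simp only [map_zero]
    ring
  · rw [hB0']
    exact mul_ne_zero (neg_ne_zero.2 hβ0) hB3
  · intro w hw
    apply hβ (-w)
    rw [hB0'] at hw
    have := mul_right_cancel₀ hB3 hw
    linear_combination -this

end norm6

section pow6

variable {k : Type} [Field k]

/-- the top coefficients of powers depend only on the leading form -/
private lemma top6 {r g : MvPolynomial (Fin 2) k} (hr : Dg6 2 r) (hg : Dg6 3 g) (N : ℕ) (e : Fin 2 →₀ ℕ)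
    (he : 3 * N ≤ e 0 + e 1) : ((r + g) ^ N).coeff e = (g ^ N).coeff e := by
  have key : ∀ N : ℕ, ∀ e : Fin 2 →₀ ℕ, 3 * N ≤ e 0 + e 1 → ((r + g) ^ N - g ^ N).coeff e = 0 := by
    intro N
    induction N with
    | zero =>
      intro e _
      simp
    | succ N ih =>
      intro e he
      have e1 : (r + g) ^ (N + 1) - g ^ (N + 1) = (r + g) ^ N * r + ((r + g) ^ N - g ^ N) * g := by ring
      rw [e1, coeff_add, mul6 ih hg e (by omega), add_zero]
      have h1 := (((hr.mono (by norm_num)).add hg).pow N).mul hr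
      exact h1 e (by omega)
  have := key N e he
  rwa [coeff_sub, sub_eq_zero] at this

/-- powers of a sum of two monomials -/
private lemma bin6 (a b a' b' : ℕ) (α γ : k) (N : ℕ) (e : Fin 2 →₀ ℕ) :
    ((monomial (ex6 a b) α + monomial (ex6 a' b') γ) ^ N).coeff e =
      ∑ m ∈ range (N + 1), if e 0 = m * a + (N - m) * a' ∧ e 1 = m * b + (N - m) * b' then
        α ^ m * γ ^ (N - m) * (N.choose m : k) else 0 := by
  rw [add_pow, coeff_sum]
  refine Finset.sum_congr rfl fun m _ => ?_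
  have h1 : m • ex6 a b + (N - m) • ex6 a' b' = ex6 (m * a + (N - m) * a') (m * b + (N - m) * b') := by
    symm
    rw [ex6_ext]
    simp [ex6_0, ex6_1]
  have h2 : ((N.choose m : ℕ) : MvPolynomial (Fin 2) k) = C ((N.choose m : ℕ) : k) := (map_natCast C _).symm
  rw [monomial_pow, monomial_pow, monomial_mul, h2, mul_comm, coeff_C_mul, coeff_monomial, h1]
  by_cases h3 : e 0 = m * a + (N - m) * a' ∧ e 1 = m * b + (N - m) * b'
  · rw [if_pos h3, if_pos (ex6_ext.2 h3), mul_comm]
  · rw [if_neg h3, if_neg (fun h4 => h3 (ex6_ext.1 h4)), mul_zero]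

private lemma bin6_pos {a b a' b' : ℕ} (α γ : k) {N : ℕ} {e : Fin 2 →₀ ℕ} (m : ℕ) (hm : m ≤ N)
    (h0 : e 0 = m * a + (N - m) * a') (h1 : e 1 = m * b + (N - m) * b')
    (hu : ∀ m' ≤ N, e 0 = m' * a + (N - m') * a' → e 1 = m' * b + (N - m') * b' → m' = m) :
    ((monomial (ex6 a b) α + monomial (ex6 a' b') γ) ^ N).coeff e = α ^ m * γ ^ (N - m) * (N.choose m : k) := by
  rw [bin6, Finset.sum_eq_single m]
  · rw [if_pos ⟨h0, h1⟩]
  · intro m' hm' hne
    rw [if_neg]
    rintro ⟨h2, h3⟩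
    exact hne (hu m' (by rw [mem_range] at hm'; omega) h2 h3)
  · intro h
    exfalso
    apply h
    rw [mem_range]
    omega

private lemma bin6_zero {a b a' b' : ℕ} (α γ : k) {N : ℕ} {e : Fin 2 →₀ ℕ}
    (hu : ∀ m' ≤ N, e 0 = m' * a + (N - m') * a' → e 1 = m' * b + (N - m') * b' → False) :
    ((monomial (ex6 a b) α + monomial (ex6 a' b') γ) ^ N).coeff e = 0 := by
  rw [bin6]
  refine Finset.sum_eq_zero fun m hm => ?_
  rw [if_neg]
  rintro ⟨h2, h3⟩
  exact hu m (by rw [mem_range] at hm; omega) h2 h3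

private lemma mprod_diag6 {ι : Type} [Fintype ι] [DecidableEq ι] (p : ℕ) (d : ι → k) (A : ℕ → Matrix ι ι k)
    (hA : ∀ i, A i = Matrix.diagonal fun u => d u ^ p ^ i) (s : ℕ) :
    mprod A s = Matrix.diagonal fun u => d u ^ (∑ i ∈ range s, p ^ i) := by
  induction s with
  | zero => simp [mprod]
  | succ s ih =>
    rw [mprod, ih, hA, Matrix.diagonal_mul_diagonal]
    congr 1
    funext u
    rw [Finset.sum_range_succ, pow_add, mul_comm]

private lemma good6 {ι : Type} [Fintype ι] [DecidableEq ι] (p : ℕ) (d : ι → k) (A : ℕ → Matrix ι ι k)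
    (hA : ∀ i, A i = Matrix.diagonal fun u => d u ^ p ^ i) (s : ℕ) (hd : ∀ u, d u ≠ 0)
    (hi : ∀ u v, d u ^ (∑ i ∈ range s, p ^ i) = d v ^ (∑ i ∈ range s, p ^ i) → u = v) :
    (mprod A s).det ≠ 0 ∧ (mprod A s).charpoly.Separable := by
  rw [mprod_diag6 p d A hA, Matrix.det_diagonal, Matrix.charpoly_diagonal, Polynomial.separable_prod_X_sub_C_iff]
  exact ⟨Finset.prod_ne_zero_iff.2 fun u _ => pow_ne_zero _ (hd u), hi⟩

private lemma idx6 {j : ℕ} (hj : j ≤ 3) {u : ℕ × ℕ} (hu : u ∈ polyIdx {(1, 1)} 3 j) :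
    (j = 2 ∧ u = (1, 1)) ∨ (j = 3 ∧ u = (1, 2)) ∨ (j = 3 ∧ u = (2, 1)) := by
  obtain ⟨a, b⟩ := u
  unfold polyIdx polyWt at hu
  simp only [Finset.mem_filter, Finset.mem_product, Finset.mem_Icc, Finset.sup_singleton, one_mul] at hu
  simp only [Prod.mk.injEq]
  omega

private lemma blocks6 {p s t : ℕ} (hp : p = 6 * t + 1) {g : MvPolynomial (Fin 2) k} (hg : Dg6 3 g)
    (h2 : (g ^ (4 * t)).coeff (ex6 (6 * t) (6 * t)) ≠ 0)
    (ha : (g ^ (6 * t)).coeff (ex6 (6 * t) (12 * t)) ≠ 0)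
    (hb : (g ^ (6 * t)).coeff (ex6 (12 * t) (6 * t)) ≠ 0)
    (h12 : (g ^ (6 * t)).coeff (ex6 (6 * t - 1) (12 * t + 1)) = 0)
    (h21 : (g ^ (6 * t)).coeff (ex6 (12 * t + 1) (6 * t - 1)) = 0)
    (hne : (g ^ (6 * t)).coeff (ex6 (6 * t) (12 * t)) ^ (∑ i ∈ range s, p ^ i) ≠
      (g ^ (6 * t)).coeff (ex6 (12 * t) (6 * t)) ^ (∑ i ∈ range s, p ^ i)) : PolyBlocks p s 3 {(1, 1)} g := by
  classical
  have hE : ∀ (j i : ℕ) (u v : polyIdx {(1, 1)} 3 j), polyHasse p 3 {(1, 1)} g j i u v =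
      (g ^ ((p - 1) * j / 3)).coeff (ex6 (p * u.1.1 - v.1.1) (p * u.1.2 - v.1.2)) ^ p ^ i := fun _ _ _ _ => rfl
  have e2 : (p - 1) * 2 / 3 = 4 * t := by omega
  have e3 : (p - 1) * 3 / 3 = 6 * t := by omega
  have hp0 : 0 < p := by omega
  have main : ∀ j ≤ 3, (mprod (polyHasse p 3 {(1, 1)} g j) s).det ≠ 0 ∧
      (mprod (polyHasse p 3 {(1, 1)} g j) s).charpoly.Separable := by
    intro j hj
    refine good6 p (fun u : polyIdx {(1, 1)} 3 j =>
      (g ^ ((p - 1) * j / 3)).coeff (ex6 (p * u.1.1 - u.1.1) (p * u.1.2 - u.1.2))) _ ?_ s ?_ ?_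
    · intro i
      ext u v
      rw [hE, Matrix.diagonal_apply]
      by_cases huv : u = v
      · rw [if_pos huv, huv]
      · rw [if_neg huv]
        have hpi : p ^ i ≠ 0 := (pow_pos hp0 i).ne'
        obtain ⟨u, hu⟩ := u
        obtain ⟨v, hv⟩ := v
        simp only [Subtype.mk.injEq] at huv
        simp only
        rcases idx6 hj hu with ⟨h, rfl⟩ | ⟨h, rfl⟩ | ⟨h, rfl⟩
        · rcases idx6 hj hv with ⟨h', rfl⟩ | ⟨h', rfl⟩ | ⟨h', rfl⟩
          · exact absurd rfl huv
          · omega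
          · omega
        · rcases idx6 hj hv with ⟨h', rfl⟩ | ⟨h', rfl⟩ | ⟨h', rfl⟩
          · omega
          · exact absurd rfl huv
          · subst h
            have e4 : p * (1 : ℕ) - 2 = 6 * t - 1 := by omega
            have e5 : p * (2 : ℕ) - 1 = 12 * t + 1 := by omega
            rw [e3, e4, e5, h12, zero_pow hpi]
        · rcases idx6 hj hv with ⟨h', rfl⟩ | ⟨h', rfl⟩ | ⟨h', rfl⟩
          · omega
          · subst h
            have e4 : p * (1 : ℕ) - 2 = 6 * t - 1 := by omega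
            have e5 : p * (2 : ℕ) - 1 = 12 * t + 1 := by omega
            rw [e3, e4, e5, h21, zero_pow hpi]
          · exact absurd rfl huv
    · rintro ⟨u, hu⟩
      have e4 : p * (1 : ℕ) - 1 = 6 * t := by omega
      have e5 : p * (2 : ℕ) - 2 = 12 * t := by omega
      rcases idx6 hj hu with ⟨rfl, rfl⟩ | ⟨rfl, rfl⟩ | ⟨rfl, rfl⟩
      · simp only
        rw [e2, e4]
        exact h2
      · simp only
        rw [e3, e4, e5]
        exact ha
      · simp only
        rw [e3, e4, e5]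
        exact hb
    · rintro ⟨u, hu⟩ ⟨v, hv⟩ huv
      have e4 : p * (1 : ℕ) - 1 = 6 * t := by omega
      have e5 : p * (2 : ℕ) - 2 = 12 * t := by omega
      rw [Subtype.mk.injEq]
      rcases idx6 hj hu with ⟨h, rfl⟩ | ⟨h, rfl⟩ | ⟨h, rfl⟩
      · rcases idx6 hj hv with ⟨h', rfl⟩ | ⟨h', rfl⟩ | ⟨h', rfl⟩
        · rfl
        · omega
        · omega
      · rcases idx6 hj hv with ⟨h', rfl⟩ | ⟨h', rfl⟩ | ⟨h', rfl⟩
        · omega
        · rfl
        · exfalso
          subst h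
          simp only [e3, e4, e5] at huv
          exact hne huv
      · rcases idx6 hj hv with ⟨h', rfl⟩ | ⟨h', rfl⟩ | ⟨h', rfl⟩
        · omega
        · exfalso
          subst h
          simp only [e3, e4, e5] at huv
          exact hne huv.symm
        · rfl
  refine ⟨by norm_num, by omega, ⟨(1, 1), by simp, by norm_num⟩, ⟨(1, 1), by simp, by norm_num⟩, ?_,
    fun j hj => (main j hj).1, fun j hj => (main j hj).2⟩
  intro e he
  unfold polyWt
  simp only [Finset.sup_singleton, one_mul]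
  by_contra h
  exact (mem_support_iff.1 he) (hg e (not_le.1 h))

end pow6

/-- WS-25 -/
theorem cubic_poly {p : ℕ} [Fact p.Prime] {k : Type} [Field k] [Fintype k] {s : ℕ}
    (hk : Fintype.card k = p ^ s) {f : MvPolynomial (Fin 2) k} (hf : CubicForm p f) :
    ∃ φ : MvPolynomial (Fin 2) k ≃ₐ[k] MvPolynomial (Fin 2) k,
      PolyBlocks p s 3 {(1, 1)} (φ f) := by
  classical
  have hpp : p.Prime := Fact.out
  have : CharP k p := charP_of_card_eq_prime_pow hk
  obtain ⟨t, ht⟩ : ∃ t, p = 6 * t + 1 := by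
    obtain ⟨a, ha⟩ := hf.dvd
    have h1 := hpp.one_lt
    rcases hpp.eq_two_or_odd with h2 | h2
    · omega
    · exact ⟨a / 2, by omega⟩
  have ht0 : 0 < t := by
    have := hpp.one_lt
    omega
  set R : ℕ := ∑ i ∈ range s, p ^ i with hR
  have hq : Fintype.card k = 6 * t * R + 1 := by
    rw [hk, hR]
    clear_value R
    clear hk hR
    induction s with
    | zero => simp
    | succ s ih =>
      rw [Finset.sum_range_succ, mul_add, pow_succ]
      have h1 : 6 * t * p ^ s = p ^ s * p - p ^ s := by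
        rw [ht]
        conv_rhs => rw [mul_add, mul_one, Nat.add_sub_cancel]
        ring
      have h2 : p ^ s ≤ p ^ s * p := Nat.le_mul_of_pos_right _ hpp.pos
      omega
  have h2 : (2 : k) ≠ 0 := by
    intro h
    have h3 : ((2 : ℕ) : k) = 0 := by exact_mod_cast h
    rw [CharP.cast_eq_zero_iff k p] at h3
    have := Nat.le_of_dvd (by norm_num) h3
    omega
  obtain ⟨c, hc, hns⟩ := hf.form
  have hns' : ¬ Sp6 (F6 c) := not_sp6 hns
  -- the lower terms
  have hr : Dg6 2 (f - F6 c) := by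
    intro e he
    rw [coeff_sub]
    by_cases h3 : e 0 + e 1 = 3
    · have e1 : ex6 (e 0) (e 1) = e := ex6_ext.2 ⟨rfl, rfl⟩
      rw [← e1, coeff_F6]
      have hc0 := hc 0
      have hc1 := hc 1
      have hc2 := hc 2
      have hc3 := hc 3
      have h4 : (e 0 = 0 ∧ e 1 = 3) ∨ (e 0 = 1 ∧ e 1 = 2) ∨ (e 0 = 2 ∧ e 1 = 1) ∨ (e 0 = 3 ∧ e 1 = 0) := by omega
      rcases h4 with ⟨h5, h6⟩ | ⟨h5, h6⟩ | ⟨h5, h6⟩ | ⟨h5, h6⟩
      · rw [h5, h6]
        simp only [ex6]
        simp at hc0 ⊢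
        rw [hc0]
        simp
      · rw [h5, h6]
        simp only [ex6]
        simp at hc1 ⊢
        rw [hc1]
        simp
      · rw [h5, h6]
        simp only [ex6]
        simp at hc2 ⊢
        rw [hc2]
        simp
      · rw [h5, h6]
        simp only [ex6]
        simp at hc3 ⊢
        rw [hc3]
        simp
    · have h4 : f.coeff e = 0 := by
        by_contra h5
        have := hf.deg e (mem_support_iff.2 h5)
        omega
      rw [h4, Dg6.F6 c e (by omega), sub_zero]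
  have hfr : f = (f - F6 c) + F6 c := by ring
  by_cases hz : ∃ x y : k, ¬ (x = 0 ∧ y = 0) ∧ c 0 * y ^ 3 + c 1 * x * y ^ 2 + c 2 * x ^ 2 * y + c 3 * x ^ 3 = 0
  · obtain ⟨x, y, hxy, hz⟩ := hz
    obtain ⟨φ, hφ, A, B, hA, hB, hsq⟩ := caseA6 h2 hns' hxy hz
    refine ⟨φ, ?_⟩
    have hg : φ f = φ (f - F6 c) + (monomial (ex6 3 0) A + monomial (ex6 1 2) B) := by
      rw [← hA, ← map_add, ← hfr]
    have hr' := hφ.dg 2 _ hr
    have hm3 : Dg6 3 (monomial (ex6 3 0) A + monomial (ex6 1 2) B : MvPolynomial (Fin 2) k) := by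
      have h3 := Dg6.monomial (ex6 3 0) A
      have h4 := Dg6.monomial (ex6 1 2) B
      rw [ex6_0, ex6_1] at h3 h4
      exact h3.add h4
    have hA0 : A ≠ 0 := by
      rintro rfl
      apply hsq
      exact ⟨0, by ring⟩
    have v2 : ((φ f) ^ (4 * t)).coeff (ex6 (6 * t) (6 * t)) = A ^ t * B ^ (4 * t - t) * ((4 * t).choose t : k) := by
      rw [hg, top6 hr' hm3 _ _ (by rw [ex6_0, ex6_1]; omega)]
      apply bin6_pos
      · omega
      · rw [ex6_0]; omega
      · rw [ex6_1]; omega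
      · intro m' hm' _ h4
        rw [ex6_1] at h4
        omega
    have va : ((φ f) ^ (6 * t)).coeff (ex6 (6 * t) (12 * t)) = A ^ 0 * B ^ (6 * t - 0) * ((6 * t).choose 0 : k) := by
      rw [hg, top6 hr' hm3 _ _ (by rw [ex6_0, ex6_1]; omega)]
      apply bin6_pos
      · omega
      · rw [ex6_0]; omega
      · rw [ex6_1]; omega
      · intro m' hm' _ h4
        rw [ex6_1] at h4
        omega
    have vb : ((φ f) ^ (6 * t)).coeff (ex6 (12 * t) (6 * t)) =
        A ^ (3 * t) * B ^ (6 * t - 3 * t) * ((6 * t).choose (3 * t) : k) := by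
      rw [hg, top6 hr' hm3 _ _ (by rw [ex6_0, ex6_1]; omega)]
      apply bin6_pos
      · omega
      · rw [ex6_0]; omega
      · rw [ex6_1]; omega
      · intro m' hm' _ h4
        rw [ex6_1] at h4
        omega
    have v12 : ((φ f) ^ (6 * t)).coeff (ex6 (6 * t - 1) (12 * t + 1)) = 0 := by
      rw [hg, top6 hr' hm3 _ _ (by rw [ex6_0, ex6_1]; omega)]
      apply bin6_zero
      intro m' hm' _ h4
      rw [ex6_1] at h4
      omega
    have v21 : ((φ f) ^ (6 * t)).coeff (ex6 (12 * t + 1) (6 * t - 1)) = 0 := by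
      rw [hg, top6 hr' hm3 _ _ (by rw [ex6_0, ex6_1]; omega)]
      apply bin6_zero
      intro m' hm' _ h4
      rw [ex6_1] at h4
      omega
    have hc3 : (((6 * t).choose (3 * t) : ℕ) : k) = (-1) ^ (3 * t) := by
      have h3 := choose6 (p := p) (k := k) (3 * t) (by omega)
      have h4 : p - 1 = 6 * t := by omega
      rwa [h4] at h3
    have e33 : 6 * t - 3 * t = 3 * t := by omega
    have hb' : A ^ (3 * t) * B ^ (6 * t - 3 * t) * ((6 * t).choose (3 * t) : k) = (-(A * B)) ^ (3 * t) := by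
      rw [hc3, e33, ← mul_pow, ← mul_pow]
      congr 1
      ring
    apply blocks6 ht
    · rw [hg]
      exact (hr'.mono (by norm_num)).add hm3
    · rw [v2]
      exact mul_ne_zero (mul_ne_zero (pow_ne_zero _ hA0) (pow_ne_zero _ hB))
        (choose_ne6 (p := p) (by omega) (by omega))
    · rw [va]
      simpa using pow_ne_zero _ hB
    · rw [vb, hb']
      exact pow_ne_zero _ (neg_ne_zero.2 (mul_ne_zero hA0 hB))
    · exact v12
    · exact v21
    · rw [va, vb, hb']
      intro h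
      apply hsq
      have h3 : (A ^ 0 * B ^ (6 * t - 0) * ((6 * t).choose 0 : k)) ^ R = 1 := by
        rw [pow_zero, one_mul, Nat.sub_zero, Nat.choose_zero_right, Nat.cast_one, mul_one, ← pow_mul]
        have := FiniteField.pow_card_sub_one_eq_one B hB
        rwa [hq, Nat.add_sub_cancel] at this
      rw [← hR, h3, ← pow_mul] at h
      rw [FiniteField.isSquare_iff]
      · rw [hq, h]
        congr 1
        have h5 : 6 * t * R = 2 * (3 * t * R) := by ring
        omega
      · rw [ringChar.eq k p]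
        omega
      · exact neg_ne_zero.2 (mul_ne_zero hA0 hB)
  · push Not at hz
    have hz' : ∀ x y : k, c 0 * y ^ 3 + c 1 * x * y ^ 2 + c 2 * x ^ 2 * y + c 3 * x ^ 3 = 0 → x = 0 ∧ y = 0 := by
      intro x y h
      by_contra h3
      exact hz x y (fun h4 h5 => h3 ⟨h4, h5⟩) h
    have hq3 : Fintype.card k = 3 * (2 * t * R) + 1 := by
      rw [hq]
      ring
    obtain ⟨φ, hφ, α, γ, hA, hα, hγ, hcub⟩ := caseB6 hq3 hz'
    refine ⟨φ, ?_⟩
    have hg : φ f = φ (f - F6 c) + (monomial (ex6 3 0) α + monomial (ex6 0 3) γ) := by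
      rw [← hA, ← map_add, ← hfr]
    have hr' := hφ.dg 2 _ hr
    have hm3 : Dg6 3 (monomial (ex6 3 0) α + monomial (ex6 0 3) γ : MvPolynomial (Fin 2) k) := by
      have h3 := Dg6.monomial (ex6 3 0) α
      have h4 := Dg6.monomial (ex6 0 3) γ
      rw [ex6_0, ex6_1] at h3 h4
      exact h3.add h4
    have v2 : ((φ f) ^ (4 * t)).coeff (ex6 (6 * t) (6 * t)) =
        α ^ (2 * t) * γ ^ (4 * t - 2 * t) * ((4 * t).choose (2 * t) : k) := by
      rw [hg, top6 hr' hm3 _ _ (by rw [ex6_0, ex6_1]; omega)]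
      apply bin6_pos
      · omega
      · rw [ex6_0]; omega
      · rw [ex6_1]; omega
      · intro m' hm' h4 _
        rw [ex6_0] at h4
        omega
    have va : ((φ f) ^ (6 * t)).coeff (ex6 (6 * t) (12 * t)) =
        α ^ (2 * t) * γ ^ (6 * t - 2 * t) * ((6 * t).choose (2 * t) : k) := by
      rw [hg, top6 hr' hm3 _ _ (by rw [ex6_0, ex6_1]; omega)]
      apply bin6_pos
      · omega
      · rw [ex6_0]; omega
      · rw [ex6_1]; omega
      · intro m' hm' h4 _
        rw [ex6_0] at h4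
        omega
    have vb : ((φ f) ^ (6 * t)).coeff (ex6 (12 * t) (6 * t)) =
        α ^ (4 * t) * γ ^ (6 * t - 4 * t) * ((6 * t).choose (4 * t) : k) := by
      rw [hg, top6 hr' hm3 _ _ (by rw [ex6_0, ex6_1]; omega)]
      apply bin6_pos
      · omega
      · rw [ex6_0]; omega
      · rw [ex6_1]; omega
      · intro m' hm' h4 _
        rw [ex6_0] at h4
        omega
    have v12 : ((φ f) ^ (6 * t)).coeff (ex6 (6 * t - 1) (12 * t + 1)) = 0 := by
      rw [hg, top6 hr' hm3 _ _ (by rw [ex6_0, ex6_1]; omega)]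
      apply bin6_zero
      intro m' hm' h4 _
      rw [ex6_0] at h4
      omega
    have v21 : ((φ f) ^ (6 * t)).coeff (ex6 (12 * t + 1) (6 * t - 1)) = 0 := by
      rw [hg, top6 hr' hm3 _ _ (by rw [ex6_0, ex6_1]; omega)]
      apply bin6_zero
      intro m' hm' h4 _
      rw [ex6_0] at h4
      omega
    have hch : (6 * t).choose (4 * t) = (6 * t).choose (2 * t) := by
      apply Nat.choose_symm_of_eq_add
      omega
    have hchn : (((6 * t).choose (2 * t) : ℕ) : k) ≠ 0 := choose_ne6 (p := p) (by omega) (by omega)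
    have e42 : 6 * t - 2 * t = 2 * t + 2 * t := by omega
    have e24 : 6 * t - 4 * t = 2 * t := by omega
    have e44 : 4 * t = 2 * t + 2 * t := by omega
    apply blocks6 ht
    · rw [hg]
      exact (hr'.mono (by norm_num)).add hm3
    · rw [v2]
      exact mul_ne_zero (mul_ne_zero (pow_ne_zero _ hα) (pow_ne_zero _ hγ))
        (choose_ne6 (p := p) (by omega) (by omega))
    · rw [va]
      exact mul_ne_zero (mul_ne_zero (pow_ne_zero _ hα) (pow_ne_zero _ hγ)) hchn
    · rw [vb, hch]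
      exact mul_ne_zero (mul_ne_zero (pow_ne_zero _ hα) (pow_ne_zero _ hγ)) hchn
    · exact v12
    · exact v21
    · rw [va, vb, hch]
      intro h
      rw [e42, e24, e44, pow_add, pow_add] at h
      have h3 : (α ^ (2 * t) * γ ^ (2 * t) * (((6 * t).choose (2 * t) : ℕ) : k)) ^ R * (γ ^ (2 * t)) ^ R =
          (α ^ (2 * t) * γ ^ (2 * t) * (((6 * t).choose (2 * t) : ℕ) : k)) ^ R * (α ^ (2 * t)) ^ R := by
        rw [← mul_pow (α ^ (2 * t) * γ ^ (2 * t) * (((6 * t).choose (2 * t) : ℕ) : k)) (γ ^ (2 * t)) R,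
          ← mul_pow (α ^ (2 * t) * γ ^ (2 * t) * (((6 * t).choose (2 * t) : ℕ) : k)) (α ^ (2 * t)) R]
        have e1 : α ^ (2 * t) * γ ^ (2 * t) * (((6 * t).choose (2 * t) : ℕ) : k) * γ ^ (2 * t) =
            α ^ (2 * t) * (γ ^ (2 * t) * γ ^ (2 * t)) * (((6 * t).choose (2 * t) : ℕ) : k) := by ring
        have e2 : α ^ (2 * t) * γ ^ (2 * t) * (((6 * t).choose (2 * t) : ℕ) : k) * α ^ (2 * t) =
            α ^ (2 * t) * α ^ (2 * t) * γ ^ (2 * t) * (((6 * t).choose (2 * t) : ℕ) : k) := by ring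
        rw [e1, e2]
        exact h
      have h4 := mul_left_cancel₀ (pow_ne_zero _ (mul_ne_zero (mul_ne_zero (pow_ne_zero _ hα) (pow_ne_zero _ hγ)) hchn)) h3
      have h5 : (γ / α) ^ (2 * t * R) = 1 := by
        rw [div_pow, pow_mul γ (2 * t) R, pow_mul α (2 * t) R, h4]
        exact div_self (pow_ne_zero _ (pow_ne_zero _ hα))
      obtain ⟨w, hw⟩ := cube6 hq3 (div_ne_zero hγ hα) h5
      apply hcub w
      rw [hw]
      field_simp

end Pool.Agent.Helper9.WS
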